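import Mathlib
import Pool.Agent.Lib.MP_d3cc86_co.FX.Main

set_option autoImplicit false

open Finset

namespace Pool.Agent.Results.MP_d3cc86_co.ExactFormula

/-- The set of all values `|Σ A|`, where `A` runs over the asymmetric `m`-subsets of `ℤ/nℤ`
(`Finset.subsetSum A` is the set of all sums of subsets of `A`, the empty sum `0` included). -/
def sumSizes (n m : ℕ) : Set ℕ :=
  {k | ∃ A : Finset (ZMod n), A.card = m ∧ (∀ a ∈ A, -a ∉ A) ∧ A.subsetSum.card = k}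

/-- The quantity `ρ_A(n, m)` of the problem: the least size of `Σ A`. -/
noncomputable def rhoA (n m : ℕ) : ℕ := sInf (sumSizes n m)

/-- `value h m = h (1 + h Q (Q+1)/2 + s (Q+1))`, where `m - ⌊(h-1)/2⌋ = Q h + s`, `0 ≤ s < h` (natural
number subtraction, so `Q = s = 0` and the value is `h` for `m ≤ (h-1)/2`). -/
def value (h m : ℕ) : ℕ :=
  let k := m - (h - 1) / 2
  h * (1 + h * (k / h * (k / h + 1) / 2) + k % h * (k / h + 1))

/-- There is an absolute constant `M` such that for ALL `n` and all `m` with `M ≤ m ≤ ⌊(n-1)/2⌋`: with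
`F = min_{h ∣ n} value h m` we have `ρ_A(n, m) = min (F, m(m+1)/2)` if `3 ∣ n` and `m ≡ 1 (mod 3)`, or `5 ∣ n`
and `m ≡ 2 (mod 5)`, and `ρ_A(n, m) = F` otherwise. -/
theorem result :
    ∃ M : ℕ, ∀ n m : ℕ, M ≤ m → 1 ≤ m → m ≤ (n - 1) / 2 →
      IsLeast (sumSizes n m) (rhoA n m) ∧
      ∃ F : ℕ, IsLeast {v : ℕ | ∃ h : ℕ, h ∣ n ∧ v = value h m} F ∧
        rhoA n m =
          if (3 ∣ n ∧ m % 3 = 1) ∨ (5 ∣ n ∧ m % 5 = 2) then min F (m * (m + 1) / 2) else F := by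
  have hphi : ∀ h m, SPR.phi h m = value h m := fun h m => rfl
  have hT : ∀ m, SPR.T m = m * (m + 1) / 2 := fun m => rfl
  obtain ⟨M, hM⟩ := FX.lower_fx
  refine ⟨max M 7, fun n m hMm hm1 hm => ?_⟩
  have hMm' : M ≤ m := (le_max_left _ _).trans hMm
  have h7 : 7 ≤ m := (le_max_right _ _).trans hMm
  have hn : 0 < n := by omega
  haveI : NeZero n := ⟨hn.ne'⟩
  have hup : ∀ h, h ∣ n → ∃ k ∈ sumSizes n m, k ≤ value h m := by
    intro h hd
    obtain ⟨A, hA1, hA2, hA3⟩ := AM.upper_all n h m hn hd hm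
    exact ⟨A.subsetSum.card, ⟨A, hA1, hA2, rfl⟩, by rw [← hphi]; exact hA3⟩
  have hup2 : ((3 ∣ n ∧ m % 3 = 1) ∨ (5 ∣ n ∧ m % 5 = 2)) →
      ∃ k ∈ sumSizes n m, k ≤ m * (m + 1) / 2 := by
    rintro (⟨h1, h2⟩ | ⟨h1, h2⟩)
    · obtain ⟨A, hA1, hA2, hA3⟩ := FX.upper3 n m hn h1 h2 (by omega) hm
      exact ⟨A.subsetSum.card, ⟨A, hA1, hA2, rfl⟩, by rw [← hT]; exact hA3⟩
    · obtain ⟨A, hA1, hA2, hA3⟩ := FX.upper5 n m hn h1 h2 h7 hm
      exact ⟨A.subsetSum.card, ⟨A, hA1, hA2, rfl⟩, by rw [← hT]; exact hA3⟩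
  have hne : (sumSizes n m).Nonempty := by
    obtain ⟨k, hk, _⟩ := hup 1 (one_dvd _)
    exact ⟨k, hk⟩
  have hleast : IsLeast (sumSizes n m) (rhoA n m) :=
    ⟨Nat.sInf_mem hne, fun k hk => Nat.sInf_le hk⟩
  refine ⟨hleast, ?_⟩
  set V : Set ℕ := {v : ℕ | ∃ h : ℕ, h ∣ n ∧ v = value h m} with hV
  have hVne : V.Nonempty := ⟨value 1 m, 1, one_dvd _, rfl⟩
  have hF : IsLeast V (sInf V) := ⟨Nat.sInf_mem hVne, fun k hk => Nat.sInf_le hk⟩
  have hFle : ∀ h, h ∣ n → sInf V ≤ value h m := fun h hd => hF.2 ⟨h, hd, rfl⟩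
  have hle : rhoA n m ≤ sInf V := by
    obtain ⟨h, hd, he⟩ := hF.1
    obtain ⟨k, hk, hk2⟩ := hup h hd
    rw [he]
    exact (hleast.2 hk).trans hk2
  obtain ⟨A, hA1, hA2, hA3⟩ := hleast.1
  have hlow := hM n A hA2 (by rw [hA1]; exact hMm')
  rw [hA1, hA3] at hlow
  refine ⟨sInf V, hF, ?_⟩
  split_ifs with hc
  · obtain ⟨k, hk, hk2⟩ := hup2 hc
    refine le_antisymm (le_min hle ((hleast.2 hk).trans hk2)) ?_
    rcases hlow with ⟨h, hd, h1⟩ | ⟨_, h1⟩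
    · exact (min_le_left _ _).trans ((hFle h hd).trans h1)
    · exact (min_le_right _ _).trans h1
  · refine le_antisymm hle ?_
    rcases hlow with ⟨h, hd, h1⟩ | ⟨h1, _⟩
    · exact (hFle h hd).trans h1
    · exact absurd h1 hc

end Pool.Agent.Results.MP_d3cc86_co.ExactFormula
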