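import Mathlib
import Pool.Agent.Lib.MP_d3cc86_co.Upper

set_option autoImplicit false

open Finset

namespace Pool.Agent.Results.MP_d3cc86_co.LargeSets

/-- The set of all values `|Σ A|`, where `A` runs over the asymmetric `m`-subsets of `ℤ/nℤ`
(`Finset.subsetSum A` is the set of all sums of subsets of `A`, the empty sum `0` included). -/
def sumSizes (n m : ℕ) : Set ℕ :=
  {k | ∃ A : Finset (ZMod n), A.card = m ∧ (∀ a ∈ A, -a ∉ A) ∧ A.subsetSum.card = k}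

/-- The quantity `ρ_A(n, m)` of the problem: the least size of `Σ A`. -/
noncomputable def rhoA (n m : ℕ) : ℕ := sInf (sumSizes n m)

/-- For all `n ≥ 1` and all `m` with `5 √n ≤ m ≤ ⌊(n-1)/2⌋`, `ρ_A(n, m)` is the minimum over all
divisors `h ≥ m` of `n` of `h * (1 + max (0, m - ⌊(h-1)/2⌋))` (natural number subtraction and
division below). -/
theorem result (n m : ℕ) (hn : 0 < n) (hm : m ≤ (n - 1) / 2) (h25 : 25 * n ≤ m ^ 2) :
    IsLeast (sumSizes n m) (rhoA n m) ∧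
      IsLeast {v : ℕ | ∃ h : ℕ, h ∣ n ∧ m ≤ h ∧ v = h * (m - (h - 1) / 2 + 1)} (rhoA n m) := by
  classical
  haveI : NeZero n := ⟨hn.ne'⟩
  have hup : ∀ h, h ∣ n → m ≤ h → ∃ k ∈ sumSizes n m, k ≤ h * (m - (h - 1) / 2 + 1) := by
    intro h hd hmh
    obtain ⟨A, hA1, hA2, hA3⟩ := Pool.Agent.Lib.MP_d3cc86_co.upper_bound hn hm hd hmh
    exact ⟨A.subsetSum.card, ⟨A, hA1, hA2, rfl⟩, hA3⟩
  have hlow : ∀ k ∈ sumSizes n m, ∃ h, h ∣ n ∧ m ≤ h ∧ h * (m - (h - 1) / 2 + 1) ≤ k := by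
    rintro k ⟨A, hA1, hA2, rfl⟩
    obtain ⟨H, hH1, hH2⟩ := Pool.Agent.Lib.MP_d3cc86_co.lower_bound A hA2
      (by rw [ZMod.card, hA1]; exact h25)
    rw [hA1] at hH1 hH2
    refine ⟨Nat.card H, ?_, hH1, hH2⟩
    have := AddSubgroup.card_addSubgroup_dvd_card H
    rwa [Nat.card_eq_fintype_card (α := ZMod n), ZMod.card] at this
  have hmn : m ≤ n := by omega
  have hne : (sumSizes n m).Nonempty := by
    obtain ⟨k, hk, _⟩ := hup n dvd_rfl hmn
    exact ⟨k, hk⟩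
  have hleast : IsLeast (sumSizes n m) (rhoA n m) :=
    ⟨Nat.sInf_mem hne, fun k hk => Nat.sInf_le hk⟩
  refine ⟨hleast, ?_, ?_⟩
  · obtain ⟨h, hd, hmh, hle⟩ := hlow _ hleast.1
    obtain ⟨k, hk, hk2⟩ := hup h hd hmh
    have h1 := hleast.2 hk
    exact ⟨h, hd, hmh, by omega⟩
  · rintro v ⟨h, hd, hmh, rfl⟩
    obtain ⟨k, hk, hk2⟩ := hup h hd hmh
    exact (hleast.2 hk).trans hk2

end Pool.Agent.Results.MP_d3cc86_co.LargeSets
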