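import Mathlib
import Pool.Agent.Lib.MP_d3cc86_co.RG.Main

set_option autoImplicit false

open Finset

namespace Pool.Agent.Results.MP_d3cc86_co.RoughModuli

/-- The set of all values `|Σ A|`, where `A` runs over the asymmetric `m`-subsets of `ℤ/nℤ`
(`Finset.subsetSum A` is the set of all sums of subsets of `A`, the empty sum `0` included). -/
def sumSizes (n m : ℕ) : Set ℕ :=
  {k | ∃ A : Finset (ZMod n), A.card = m ∧ (∀ a ∈ A, -a ∉ A) ∧ A.subsetSum.card = k}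

/-- The quantity `ρ_A(n, m)` of the problem: the least size of `Σ A`. -/
noncomputable def rhoA (n m : ℕ) : ℕ := sInf (sumSizes n m)

/-- `value h m = h (1 + h Q (Q+1)/2 + s (Q+1))`, where `m - ⌊(h-1)/2⌋ = Q h + s`, `0 ≤ s < h` (natural
number subtraction, so `Q = s = 0` and the value is `h` for `m ≤ (h-1)/2`). -/
def value (h m : ℕ) : ℕ :=
  let k := m - (h - 1) / 2
  h * (1 + h * (k / h * (k / h + 1) / 2) + k % h * (k / h + 1))

/-- For every `n ≥ 1` all of whose prime factors are at least `10000` and all `m` with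
`1 ≤ m ≤ ⌊(n-1)/2⌋`, `ρ_A(n, m)` is the minimum of `value h m` over all divisors `h` of `n`. -/
theorem result (n m : ℕ) (hn : 0 < n) (hrough : ∀ r : ℕ, r.Prime → r ∣ n → 10000 ≤ r)
    (hm1 : 1 ≤ m) (hm : m ≤ (n - 1) / 2) :
    IsLeast (sumSizes n m) (rhoA n m) ∧
      IsLeast {v : ℕ | ∃ h : ℕ, h ∣ n ∧ v = value h m} (rhoA n m) := by
  have hphi : ∀ h m, SPR.phi h m = value h m := fun h m => rfl
  have hR : RG.Rough n := ⟨hn, hrough⟩
  have hodd : n % 2 = 1 := RG.rough_odd hR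
  have hup : ∀ h, h ∣ n → ∃ k ∈ sumSizes n m, k ≤ value h m := by
    intro h hd
    obtain ⟨A, hA1, hA2, hA3⟩ := SPR.upper n h m hodd hd hm
    exact ⟨A.subsetSum.card, ⟨A, hA1, hA2, rfl⟩, by rw [← hphi]; exact hA3⟩
  have hlow : ∀ k ∈ sumSizes n m, ∃ h, h ∣ n ∧ value h m ≤ k := by
    rintro k ⟨A, hA1, hA2, rfl⟩
    obtain ⟨h, hd, hle⟩ := RG.lower n hR A hA2
    rw [hA1, hphi] at hle
    exact ⟨h, hd, hle⟩
  have hne : (sumSizes n m).Nonempty := by
    obtain ⟨k, hk, _⟩ := hup 1 (one_dvd _)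
    exact ⟨k, hk⟩
  have hleast : IsLeast (sumSizes n m) (rhoA n m) :=
    ⟨Nat.sInf_mem hne, fun k hk => Nat.sInf_le hk⟩
  refine ⟨hleast, ?_, ?_⟩
  · obtain ⟨h, hd, hle⟩ := hlow _ hleast.1
    obtain ⟨k, hk, hk2⟩ := hup h hd
    have h1 := hleast.2 hk
    exact ⟨h, hd, by omega⟩
  · rintro v ⟨h, hd, rfl⟩
    obtain ⟨k, hk, hk2⟩ := hup h hd
    exact (hleast.2 hk).trans hk2

end Pool.Agent.Results.MP_d3cc86_co.RoughModuli
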